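import Pool.Agent.Lib.P76s.Main

/-!
# P76g.Unif: the comparison at high density, uniformly in the coupling constant
-/

open MeasureTheory Filter Topology ProbabilityTheory
open scoped ENNReal NNReal BigOperators FourierTransform

namespace Pool.Agent.P76g

open Pool.Agent.P76s Pool.Agent.P76s.SimpleLowerAux

variable {v : E3 → ℝ}

theorem int_scaled (g : ℝ) : ∫ x, g * v x = g * ∫ x, v x := integral_const_mul _ _

theorem uv_scaled {g ρ e : ℝ} {u : E3 → ℝ} (hg : 0 < g) (hv : Integrable v)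
    (h : IsSimpleSolution (fun x => g * v x) ρ u e) : Integrable fun x => u x * v x := by
  have h1 := (uv_int (hv.const_mul g) h).const_mul g⁻¹
  refine h1.congr (ae_of_all _ fun x => ?_)
  show g⁻¹ * (u x * (g * v x)) = u x * v x
  field_simp

theorem uv_scaled_int {g : ℝ} {u : E3 → ℝ} :
    ∫ x, u x * (g * v x) = g * ∫ x, u x * v x := by
  rw [← integral_const_mul]
  exact integral_congr_ae (ae_of_all _ fun x => by ring)

/-- the energy in terms of `a = ∫ u v` -/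
theorem e_scaled {g ρ e : ℝ} {u : E3 → ℝ} (hv : Integrable v)
    (h : IsSimpleSolution (fun x => g * v x) ρ u e) :
    e = g * (ρ / 2 * ((∫ x, v x) - ∫ x, u x * v x)) := by
  have h2 := h.energy
  rw [int_S_eq (hv.const_mul g) h, int_scaled, uv_scaled_int] at h2
  rw [h2]; ring

theorem a_small (hv : Integrable v) (hv0 : ∀ x, 0 ≤ v x) (hne : 0 < ∫ x, v x) {δ : ℝ}
    (hδ : 0 < δ) : ∃ ρ₁ > 0, ∀ g > 0, ∀ ρ ≥ ρ₁, ∀ (u : E3 → ℝ) (e : ℝ),
      IsSimpleSolution (fun x => g * v x) ρ u e →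
      (∀ᵐ x, 0 ≤ u x ∧ u x ≤ 1) → ∫ x, u x * v x ≤ δ := by
  have hint : ∀ M : ℝ, 0 ≤ M → Integrable fun x => max (v x - M) 0 := by
    intro M hM
    refine hv.mono' ((hv.aestronglyMeasurable.sub aestronglyMeasurable_const).sup
      aestronglyMeasurable_const) (ae_of_all _ fun x => ?_)
    rw [Real.norm_eq_abs, abs_of_nonneg (le_max_right _ _)]
    exact max_le (by linarith) (hv0 x)
  have hlim : Tendsto (fun n : ℕ => ∫ x, max (v x - n) 0) atTop (𝓝 (∫ _ : E3, (0 : ℝ))) := by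
    refine tendsto_integral_of_dominated_convergence v (fun n => (hint n
      (Nat.cast_nonneg n)).aestronglyMeasurable) hv (fun n => ae_of_all _ fun x => ?_)
      (ae_of_all _ fun x => ?_)
    · rw [Real.norm_eq_abs, abs_of_nonneg (le_max_right _ _)]
      have : (0 : ℝ) ≤ n := Nat.cast_nonneg n
      exact max_le (by linarith) (hv0 x)
    · refine tendsto_const_nhds.congr' ?_
      obtain ⟨n0, hn0⟩ := exists_nat_ge (v x)
      filter_upwards [eventually_ge_atTop n0] with n hn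
      have : (n0 : ℝ) ≤ n := by exact_mod_cast hn
      rw [max_eq_right (by linarith)]
  rw [integral_zero] at hlim
  obtain ⟨n, hn⟩ := (hlim.eventually (gt_mem_nhds (half_pos hδ))).exists
  refine ⟨2 * (n + 1) / δ, by positivity, ?_⟩
  intro g hg ρ hρ u e h hu
  have hρ0 : 0 < ρ := lt_of_lt_of_le (by positivity) hρ
  have h1 := int_u_eq (hv.const_mul g) (fun x => mul_nonneg hg.le (hv0 x))
    (by rw [int_scaled]; positivity) hρ0 h hu
  have hn0 : (0 : ℝ) ≤ n := Nat.cast_nonneg n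
  have h2 : ∫ x, u x * v x ≤ ∫ x, ((n : ℝ) * u x + max (v x - n) 0) := by
    refine integral_mono_ae (uv_scaled hg hv h) ((h.int_u.const_mul _).add (hint n hn0)) ?_
    filter_upwards [hu] with x hx
    have h3 : v x - n ≤ max (v x - n) 0 := le_max_left _ _
    have h4 : 0 ≤ max (v x - n) 0 := le_max_right _ _
    nlinarith [hx.1, hx.2, mul_nonneg hx.1 (sub_nonneg.2 h3), mul_nonneg (sub_nonneg.2 hx.2) h4]
  rw [integral_add (h.int_u.const_mul _) (hint n hn0), integral_const_mul] at h2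
  have h5 : (n : ℝ) * ∫ x, u x ≤ δ / 2 := by
    have h6 : 2 * ((n : ℝ) + 1) ≤ ρ * δ := by
      have := (div_le_iff₀ hδ).1 hρ
      exact this
    have h7 : 0 < ∫ x, u x := by
      by_contra hcon
      push Not at hcon
      nlinarith
    have h8 : 2 * ((n : ℝ) + 1) * ∫ x, u x ≤ ρ * δ * ∫ x, u x :=
      mul_le_mul_of_nonneg_right h6 h7.le
    have h9 : ρ * δ * ∫ x, u x = δ := by
      rw [mul_right_comm, h1, one_mul]
    nlinarith
  linarith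

theorem simple_lower_one (hv : Integrable v) (hv0 : ∀ x, 0 ≤ v x)
    (hne : 0 < ∫ x, v x) {ε : ℝ} (hε : 0 < ε) :
    ∃ ρ₁ > 0, ∀ g > 0, ∀ ρ ≥ ρ₁, ∀ (u : E3 → ℝ) (e : ℝ),
      IsSimpleSolution (fun x => g * v x) ρ u e →
      (∀ᵐ x, 0 ≤ u x ∧ u x ≤ 1) → g * (ρ / 2 * ((∫ x, v x) - ε)) ≤ e := by
  obtain ⟨ρ₁, hρ₁, H⟩ := a_small hv hv0 hne hε
  refine ⟨ρ₁, hρ₁, fun g hg ρ hρ u e h hu => ?_⟩
  have h1 := H g hg ρ hρ u e h hu
  have hρ0 : 0 < ρ := lt_of_lt_of_le hρ₁ hρ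
  rw [e_scaled hv h]
  gcongr

theorem simple_lower_two (hv : Integrable v) (hv0 : ∀ x, 0 ≤ v x)
    (hv2 : MemLp v 2) (hne : 0 < ∫ x, v x) {ε : ℝ} (hε : 0 < ε) :
    ∃ ρ₁ > 0, ∀ g > 0, ∀ ρ ≥ ρ₁, ∀ (u : E3 → ℝ) (e : ℝ),
      IsSimpleSolution (fun x => g * v x) ρ u e →
      (∀ᵐ x, 0 ≤ u x ∧ u x ≤ 1) →
        g * (ρ / 2 * (∫ x, v x) - (∫ x, v x ^ 2) / (2 * ∫ x, v x) - ε) ≤ e := by
  have hW : 0 ≤ ∫ x, v x ^ 2 := integral_nonneg fun x => by positivity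
  have hδ : 0 < min ((∫ x, v x) / 2) (ε * (∫ x, v x) ^ 2 / ((∫ x, v x ^ 2) + 1)) := by
    refine lt_min (by positivity) (by positivity)
  obtain ⟨ρ₁, hρ₁, H⟩ := a_small hv hv0 hne hδ
  refine ⟨ρ₁, hρ₁, fun g hg ρ hρ u e h hu => ?_⟩
  have h1 := H g hg ρ hρ u e h hu
  have hρ0 : 0 < ρ := lt_of_lt_of_le hρ₁ hρ
  have h2 := e_scaled hv h
  have h3 := two_e_a (hv.const_mul g) (fun x => mul_nonneg hg.le (hv0 x)) (hv2.const_mul g)
    (by rw [int_scaled]; positivity) hρ0 h hu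
  rw [uv_scaled_int] at h3
  have h3' : ∫ x, (g * v x) ^ 2 = g ^ 2 * ∫ x, v x ^ 2 := by
    rw [← integral_const_mul]
    exact integral_congr_ae (ae_of_all _ fun x => by ring)
  rw [h3'] at h3
  have h4 := a_nonneg hv0 hu
  set V := ∫ x, v x with hV
  set W := ∫ x, v x ^ 2 with hWd
  set a := ∫ x, u x * v x with ha
  have h5 : a ≤ V / 2 := h1.trans (min_le_left _ _)
  have h6 : a ≤ ε * V ^ 2 / (W + 1) := h1.trans (min_le_right _ _)
  have h7 : a * (W + 1) ≤ ε * V ^ 2 := by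
    rwa [le_div_iff₀ (by positivity)] at h6
  have hVa : 0 < V - a := by linarith
  have h8 : ρ * a * (V - a) ≤ W := by
    have h81 : g ^ 2 * (ρ * a * (V - a)) ≤ g ^ 2 * W := by
      rw [h2] at h3
      refine le_trans (le_of_eq ?_) h3
      ring
    exact le_of_mul_le_mul_left h81 (by positivity)
  have h9 : ρ * a ≤ W / (V - a) := by
    rw [le_div_iff₀ hVa]
    exact h8
  have h10 : W / (V - a) ≤ W / V + 2 * ε := by
    rw [div_add' _ _ _ hne.ne', div_le_div_iff₀ hVa hne]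
    have h11 : 0 ≤ 2 * ε * V * (V / 2 - a) := by
      have : 0 ≤ V / 2 - a := by linarith
      positivity
    nlinarith
  have h12 : W / (2 * V) = (W / V) / 2 := by
    rw [mul_comm, div_div]
  rw [h12, h2]
  refine mul_le_mul_of_nonneg_left ?_ hg.le
  linarith

theorem pot_scaled {g : ℝ} (hg : 0 ≤ g) (y : Fin 3 → ℝ) :
    pot (fun x => g * v x) y = ENNReal.ofReal g * pot v y := by
  unfold pot
  exact ENNReal.ofReal_mul hg

theorem KK_scaled {g : ℝ} (hg : 0 ≤ g) (hvm : Measurable v) (s : ℝ≥0) (d : Fin 3 → ℝ) :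
    KK s (pot fun x => g * v x) d = ENNReal.ofReal g * KK s (pot v) d := by
  unfold KK
  simp only [pot_scaled hg]
  have hm : Measurable (pot v) := measurable_pot hvm
  have h1 : ∀ z : Fin 3 → ℝ, ∫⁻ z', ENNReal.ofReal g * pot v (d + z - z') ∂(gam3 s) =
      ENNReal.ofReal g * ∫⁻ z', pot v (d + z - z') ∂(gam3 s) := fun z =>
    lintegral_const_mul _ (hm.comp (measurable_const.sub measurable_id))
  simp only [h1]
  rw [lintegral_const_mul' _ _ ENNReal.ofReal_ne_top]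

/-- The upper bound for `E₀/N` at high density. -/
theorem upper_density (hvm : Measurable v) (hv : Integrable v) (hv0 : ∀ x, 0 ≤ v x)
    (heven : ∀ x, v (-x) = v x) {s : ℝ≥0} (hs : s ≠ 0) {κ ℓ : ℝ} (hℓ : 0 < ℓ)
    (hK : ∀ d : Fin 3 → ℝ, (∀ b, |d b| ≤ ℓ) → ENNReal.ofReal κ ≤ KK s (pot v) d) {δ g₀ : ℝ}
    (hδ0 : 0 < δ) (hg₀ : 0 < g₀) :
    ∃ ρ₀ > 0, ∀ g ≥ g₀, ∀ ρ ≥ ρ₀, ∃ N₀ : ℕ, ∀ N ≥ N₀,
      groundEnergy N ((N / ρ) ^ (1 / 3 : ℝ))
        (periodize ((N / ρ) ^ (1 / 3 : ℝ)) (pot fun x => g * v x)) ≤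
        ENNReal.ofReal (g * (ρ / 2 * (∫ x, v x) - κ / 2 + 2 * δ) * N) := by
  set V₀ := ∫ x, v x with hV₀
  have hV₀0 : 0 ≤ V₀ := integral_nonneg hv0
  have hs' : (0 : ℝ) < s := by positivity
  obtain ⟨ν₀, hν₀⟩ := (eventually_atTop.1 (tendsto_err.eventually
    (gt_mem_nhds (show (0 : ℝ) < 4 * s * (g₀ * δ) by positivity))))
  set ν₁ := max ν₀ 1 with hν₁
  have hν₁1 : (1 : ℝ) ≤ ν₁ := le_max_right _ _
  refine ⟨max (8 * ν₁ / ℓ ^ 3) (32 * V₀ / (ℓ ^ 6 * δ)), by positivity, ?_⟩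
  intro g hg ρ hρ
  have hg0 : 0 < g := lt_of_lt_of_le hg₀ hg
  have hρ2 : 8 * ν₁ / ℓ ^ 3 ≤ ρ := le_trans (le_max_left _ _) hρ
  have hρ3 : 32 * V₀ / (ℓ ^ 6 * δ) ≤ ρ := le_trans (le_max_right _ _) hρ
  have hρ0 : 0 < ρ := lt_of_lt_of_le (by positivity) hρ2
  obtain ⟨N₀, hN₀⟩ := eventually_atTop.1 ((tendsto_side hρ0).eventually_ge_atTop ℓ)
  refine ⟨max N₀ 1, ?_⟩
  intro N hN
  have hN1 : N₀ ≤ N := le_trans (le_max_left _ _) hN
  have hNpos : 0 < N := lt_of_lt_of_le one_pos (le_trans (le_max_right _ _) hN)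
  have hNpos' : (0 : ℝ) < N := by exact_mod_cast hNpos
  have hLℓ := hN₀ N hN1
  set L := ((N : ℝ) / ρ) ^ (1 / 3 : ℝ) with hL
  have hL0 : 0 < L := lt_of_lt_of_le hℓ hLℓ
  have hL3 : L ^ 3 = N / ρ := side_cube hρ0 N
  -- the number of cells
  set m := ⌈L / ℓ⌉₊ with hm
  have hm0 : 0 < m := Nat.ceil_pos.2 (by positivity)
  have hm0' : (0 : ℝ) < m := by exact_mod_cast hm0
  have hm1 : L / ℓ ≤ m := Nat.le_ceil _
  have hm2 : (m : ℝ) ≤ 2 * (L / ℓ) := by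
    have h1 : (m : ℝ) < L / ℓ + 1 := Nat.ceil_lt_add_one (by positivity)
    have h2 : 1 ≤ L / ℓ := by rw [le_div_iff₀ hℓ]; linarith
    linarith
  have hcell : L / m ≤ ℓ := by
    rw [div_le_iff₀ hm0']
    rw [div_le_iff₀ hℓ] at hm1
    linarith
  have hcell2 : ℓ / 2 ≤ L / m := by
    rw [le_div_iff₀ hm0']
    calc ℓ / 2 * m ≤ ℓ / 2 * (2 * (L / ℓ)) := by gcongr
      _ = L := by field_simp
  have hup := upper (w := pot fun x => g * v x) (V₀ := g * V₀) (κ := g * κ) hNpos hm0 hL0 hs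
    (measurable_pot (hvm.const_mul g))
    (pot_neg fun x => by rw [heven])
    (by rw [lintegral_pot (hvm.const_mul g) (hv.const_mul g) (fun x => mul_nonneg hg0.le (hv0 x)),
          int_scaled])
    (by positivity)
    (fun d hd => by
      rw [KK_scaled hg0.le hvm, ENNReal.ofReal_mul hg0.le]
      gcongr
      exact hK d fun b => (hd b).trans hcell)
  refine hup.trans (ENNReal.ofReal_le_ofReal ?_)
  -- the arithmetic
  set ν := (N : ℝ) / m ^ 3 with hν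
  have hνeq : ν = ρ * (L / m) ^ 3 := by
    rw [hν, div_pow, hL3]
    field_simp
  have hν1 : ν₁ ≤ ν := by
    rw [hνeq]
    calc ν₁ = 8 * ν₁ / ℓ ^ 3 * (ℓ / 2) ^ 3 := by field_simp; norm_num
      _ ≤ ρ * (L / m) ^ 3 := by gcongr
  have hνpos : 0 < ν := by linarith
  have herr : (1 + Real.log (ν + 1) + 1 / ν) / ν < 4 * s * (g₀ * δ) :=
    hν₀ ν ((le_max_left _ _).trans hν1)
  have hm3N : (m : ℝ) ^ 3 / N = 1 / ν := by rw [hν]; field_simp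
  have hkin : (m : ℝ) ^ 3 * (1 + Real.log (ν + 1) + m ^ 3 / N) / (4 * s) ≤ g * (δ * N) := by
    rw [hm3N]
    have h1 : (m : ℝ) ^ 3 = N / ν := by rw [hν]; field_simp
    rw [h1, div_le_iff₀ (by positivity)]
    have h2 : (N : ℝ) / ν * (1 + Real.log (ν + 1) + 1 / ν) =
        N * ((1 + Real.log (ν + 1) + 1 / ν) / ν) := by field_simp
    rw [h2]
    calc (N : ℝ) * ((1 + Real.log (ν + 1) + 1 / ν) / ν) ≤ N * (4 * s * (g₀ * δ)) := by gcongr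
      _ ≤ N * (4 * s * (g * δ)) := by gcongr
      _ = g * (δ * N) * (4 * s) := by ring
  have hself : (1 : ℝ) / 2 * ((m ^ 3) ^ 2 * V₀ / L ^ 3) ≤ δ * N := by
    have h1 : (m : ℝ) ^ 3 = N / ν := by rw [hν]; field_simp
    rw [h1, hL3]
    have h2 : (1 : ℝ) / 2 * ((N / ν) ^ 2 * V₀ / (N / ρ)) = N * (1 / 2 * V₀ * ρ / ν ^ 2) := by
      field_simp
    rw [h2, mul_comm δ]
    refine mul_le_mul_of_nonneg_left ?_ hNpos'.le
    have h3 : ρ * (ℓ / 2) ^ 3 ≤ ν := by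
      rw [hνeq]; gcongr
    have h4 : (ρ * (ℓ / 2) ^ 3) ^ 2 ≤ ν ^ 2 := by gcongr
    rw [div_le_iff₀ (by positivity)]
    have h5 : 32 * V₀ ≤ ρ * (ℓ ^ 6 * δ) := by
      rwa [div_le_iff₀ (by positivity)] at hρ3
    calc 1 / 2 * V₀ * ρ = (32 * V₀) * (ρ / 64) := by ring
      _ ≤ (ρ * (ℓ ^ 6 * δ)) * (ρ / 64) := by gcongr
      _ = δ * (ρ * (ℓ / 2) ^ 3) ^ 2 := by ring
      _ ≤ δ * ν ^ 2 := by gcongr
  have hmain : (1 : ℝ) / 2 * (N ^ 2 * V₀ / L ^ 3) = N * (ρ / 2 * V₀) := by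
    rw [hL3]; field_simp
  have : (1 : ℝ) / 2 * (N ^ 2 * (g * V₀) / L ^ 3 + (m ^ 3) ^ 2 * (g * V₀) / L ^ 3 - N * (g * κ)) =
      g * (1 / 2 * (N ^ 2 * V₀ / L ^ 3) + 1 / 2 * ((m ^ 3) ^ 2 * V₀ / L ^ 3) - N * κ / 2) := by
    ring
  rw [this, hmain]
  have hself' := mul_le_mul_of_nonneg_left hself hg0.le
  have hfin : g * (ρ / 2 * V₀ - κ / 2 + 2 * δ) * N = g * (δ * N) + (g * (N * (ρ / 2 * V₀)) +
    g * (δ * N) - g * (N * κ / 2)) := by ring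
  rw [hfin]
  have h9 : g * (N * (ρ / 2 * V₀) + 1 / 2 * ((m ^ 3) ^ 2 * V₀ / L ^ 3) - N * κ / 2) =
    g * (N * (ρ / 2 * V₀)) + g * (1 / 2 * ((m ^ 3) ^ 2 * V₀ / L ^ 3)) - g * (N * κ / 2) := by ring
  rw [h9]
  linarith

/-- Case A: potentials of positive type. -/
theorem main_pos (hvm : Measurable v) (hv : Integrable v) (hv0 : ∀ x, 0 ≤ v x)
    (heven : ∀ x, v (-x) = v x) (hv2 : MemLp v 2) (hne : 0 < ∫ x, v x)
    (hpos : ∀ k, 0 ≤ (𝓕 (fun x => (v x : ℂ)) k).re) {g₀ : ℝ} (hg₀ : 0 < g₀) :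
    ∃ δ > 0, ∃ ρ₀ > 0, ∀ g ≥ g₀, ∀ ρ ≥ ρ₀, ∃ N₀ : ℕ, ∀ (u : E3 → ℝ) (e : ℝ),
      IsSimpleSolution (fun x => g * v x) ρ u e → (∀ᵐ x, u x ≤ 1) → ∀ N ≥ N₀,
      groundEnergy N ((N / ρ) ^ (1 / 3 : ℝ))
        (periodize ((N / ρ) ^ (1 / 3 : ℝ)) (pot fun x => g * v x)) ≤
        ENNReal.ofReal ((e - δ * g) * N) := by
  obtain ⟨s, hs, κ, hκ, ℓ, hℓ, hK⟩ := exists_kappa hvm hv hv0 heven hv2 hne hpos
  set V₀ := ∫ x, v x with hV₀
  set A := (∫ x, v x ^ 2) / V₀ with hA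
  set δ := (κ - A) / 8 with hδ
  have hδ0 : 0 < δ := by rw [hδ]; linarith
  obtain ⟨ρ₁, hρ₁, hlow⟩ := simple_lower_two hv hv0 hv2 hne hδ0
  obtain ⟨ρ₂, hρ₂, hup⟩ := upper_density hvm hv hv0 heven hs hℓ hK hδ0 hg₀
  refine ⟨δ, hδ0, max ρ₁ ρ₂, by positivity, ?_⟩
  intro g hg ρ hρ
  have hg0 : 0 < g := lt_of_lt_of_le hg₀ hg
  have hρ1 : ρ₁ ≤ ρ := le_trans (le_max_left _ _) hρ
  have hρ2 : ρ₂ ≤ ρ := le_trans (le_max_right _ _) hρ
  have hρ0 : 0 < ρ := lt_of_lt_of_le hρ₁ hρ1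
  obtain ⟨N₀, hN₀⟩ := hup g hg ρ hρ2
  refine ⟨N₀, ?_⟩
  intro u e hsol hu1 N hN
  have hu0 := nonneg_of_le_one hρ0 (hv.const_mul g) (fun x => mul_nonneg hg0.le (hv0 x)) hsol hu1
  have hlow' := hlow g hg0 ρ hρ1 u e hsol
    (by filter_upwards [hu0, hu1] with x h1 h2 using ⟨h1, h2⟩)
  refine (hN₀ N hN).trans (ENNReal.ofReal_le_ofReal ?_)
  refine mul_le_mul_of_nonneg_right ?_ (Nat.cast_nonneg N)
  have hAeq : (∫ x, v x ^ 2) / (2 * V₀) = A / 2 := by rw [hA]; ring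
  rw [hAeq] at hlow'
  have hκ8 : κ = A + 8 * δ := by rw [hδ]; ring
  rw [hκ8]
  nlinarith

/-- Case B: some Fourier coefficient of `v` is negative. -/
theorem main_neg (hvm : Measurable v) (hv : Integrable v) (hv0 : ∀ x, 0 ≤ v x)
    (heven : ∀ x, v (-x) = v x) (hne : 0 < ∫ x, v x)
    (hneg : ∃ k, (𝓕 (fun x => (v x : ℂ)) k).re < 0) {g₀ : ℝ} (hg₀ : 0 < g₀) :
    ∃ δ > 0, ∃ ρ₀ > 0, ∀ g ≥ g₀, ∀ ρ ≥ ρ₀, ∃ N₀ : ℕ, ∀ (u : E3 → ℝ) (e : ℝ),
      IsSimpleSolution (fun x => g * v x) ρ u e → (∀ᵐ x, u x ≤ 1) → ∀ N ≥ N₀,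
      groundEnergy N ((N / ρ) ^ (1 / 3 : ℝ))
        (periodize ((N / ρ) ^ (1 / 3 : ℝ)) (pot fun x => g * v x)) ≤
        ENNReal.ofReal ((e - δ * g * ρ) * N) := by
  obtain ⟨k₀, hk₀⟩ := hneg
  set V₀ := ∫ x, v x with hV₀
  set c := -(𝓕 (fun x => (v x : ℂ)) k₀).re with hc
  have hc0 : 0 < c := by rw [hc]; linarith
  set C := Real.pi ^ 2 * (‖k₀‖ + 1) ^ 2 / 4 with hC
  have hC0 : 0 ≤ C := by positivity
  obtain ⟨ρ₁, hρ₁, hlow⟩ := simple_lower_one hv hv0 hne (show 0 < c / 32 by positivity)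
  refine ⟨c / 128, by positivity, max ρ₁ (128 * C / (c * g₀)), by positivity, ?_⟩
  intro g hg ρ hρ
  have hg0 : 0 < g := lt_of_lt_of_le hg₀ hg
  have hρ1 : ρ₁ ≤ ρ := le_trans (le_max_left _ _) hρ
  have hρ2 : 128 * C / (c * g₀) ≤ ρ := le_trans (le_max_right _ _) hρ
  have hρ0 : 0 < ρ := lt_of_lt_of_le hρ₁ hρ1
  have hcont : Continuous (fun k => (𝓕 (fun x => (v x : ℂ)) k).re) :=
    Complex.continuous_re.comp (VectorFourier.fourierIntegral_continuous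
      Real.continuous_fourierChar (by exact continuous_inner) hv.ofReal)
  have hev : ∀ᶠ N : ℕ in atTop, (𝓕 (fun x => (v x : ℂ)) (WithLp.toLp 2
      (fun b => (round (((N : ℝ) / ρ) ^ (1 / 3 : ℝ) * k₀ b) : ℝ) / ((N : ℝ) / ρ) ^ (1 / 3 : ℝ)) : E3)).re
        < -(c / 2) ∧ ‖(WithLp.toLp 2
      (fun b => (round (((N : ℝ) / ρ) ^ (1 / 3 : ℝ) * k₀ b) : ℝ) / ((N : ℝ) / ρ) ^ (1 / 3 : ℝ)) : E3)‖
        < ‖k₀‖ + 1 ∧ 0 < ((N : ℝ) / ρ) ^ (1 / 3 : ℝ) := by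
    have h1 := (tendsto_mode k₀).comp (tendsto_side hρ0)
    have h2 := (hcont.tendsto k₀).comp h1
    have h3 := (continuous_norm.tendsto k₀).comp h1
    refine (h2.eventually (gt_mem_nhds (by rw [hc]; linarith))).and
      ((h3.eventually (gt_mem_nhds (by linarith))).and
        ((tendsto_side hρ0).eventually_gt_atTop 0))
  obtain ⟨N₀, hN₀⟩ := eventually_atTop.1 hev
  refine ⟨max N₀ 1, ?_⟩
  intro u e hsol hu1 N hN
  have hNpos : 0 < N := lt_of_lt_of_le one_pos (le_trans (le_max_right _ _) hN)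
  have hNpos' : (0 : ℝ) < N := by exact_mod_cast hNpos
  obtain ⟨hk1, hk2, hL0⟩ := hN₀ N (le_trans (le_max_left _ _) hN)
  set L := ((N : ℝ) / ρ) ^ (1 / 3 : ℝ) with hL
  have hL3 : L ^ 3 = N / ρ := side_cube hρ0 N
  have hv0g : ∀ x, 0 ≤ g * v x := fun x => mul_nonneg hg0.le (hv0 x)
  have hu0 := nonneg_of_le_one hρ0 (hv.const_mul g) hv0g hsol hu1
  have hlow' := hlow g hg0 ρ hρ1 u e hsol
    (by filter_upwards [hu0, hu1] with x h1 h2 using ⟨h1, h2⟩)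
  refine (upper_mode hNpos hL0 (hvm.const_mul g) (hv.const_mul g) hv0g
    (fun x => by rw [heven]) (fun b => round (L * k₀ b)) _ rfl).trans
    (ENNReal.ofReal_le_ofReal ?_)
  set k : E3 := WithLp.toLp 2 (fun b => (round (L * k₀ b) : ℝ) / L) with hk
  have hρN : (N : ℝ) / L ^ 3 = ρ := by rw [hL3]; field_simp
  have hF : (𝓕 (fun x => ((g * v x : ℝ) : ℂ)) k).re = g * (𝓕 (fun x => (v x : ℂ)) k).re := by
    have h1 : (fun x => ((g * v x : ℝ) : ℂ)) = (g : ℂ) • fun x => (v x : ℂ) := by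
      funext x; simp
    rw [h1]
    have h2 : 𝓕 ((g : ℂ) • fun x => (v x : ℂ)) k = (g : ℂ) • 𝓕 (fun x => (v x : ℂ)) k := by
      rw [Real.fourier_eq, Real.fourier_eq, ← integral_smul]
      refine integral_congr_ae (ae_of_all _ fun x => ?_)
      simp only [Pi.smul_apply]
      rw [smul_comm]
    rw [h2, smul_eq_mul, Complex.re_ofReal_mul]
  rw [hρN, mul_comm (N : ℝ), hF, int_scaled]
  refine mul_le_mul_of_nonneg_right ?_ hNpos'.le
  have hkin : Real.pi ^ 2 * ‖k‖ ^ 2 / 4 ≤ C := by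
    rw [hC]; gcongr
  have hpot : (1 : ℝ) / 2 * ρ * (V₀ + 1 / 8 * (𝓕 (fun x => (v x : ℂ)) k).re) ≤
      1 / 2 * ρ * (V₀ + 1 / 8 * (-(c / 2))) := by gcongr
  have hpot' := mul_le_mul_of_nonneg_left hpot hg0.le
  have hCρ : 128 * C ≤ g * (ρ * c) := by
    have h1 : 128 * C ≤ ρ * (c * g₀) := by rwa [div_le_iff₀ (by positivity)] at hρ2
    calc 128 * C ≤ ρ * (c * g₀) := h1
      _ ≤ ρ * (c * g) := by gcongr
      _ = g * (ρ * c) := by ring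
  nlinarith

end Pool.Agent.P76g
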